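import Pool.Agent.H31.SX.Defs

/-!
# The sub-Weyl bound in the archimedean and in the depth aspect: targets about finite rings
-/

set_option autoImplicit false

open Finset Complex

namespace Pool.Agent.H31.SX

open Pool.Agent.H31.SW (dif)
open Pool.Agent.H29.TC (AC MC)

open scoped Classical in
/-- (RA) duality for the ideals of a finite ring with a nondegenerate additive character. -/
def X_RA : Prop :=
  ∀ (R : Type) [CommRing R] [Fintype R] (θ : R → ℂ), ND θ → ∀ I : Ideal R,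
    (∀ φ : R → ℂ, (∀ x ∈ I, ∀ y ∈ I, φ (x + y) = φ x * φ y) → (∀ x ∈ I, ‖φ x‖ = 1) →
      ∃ ν : R, ∀ t ∈ I, φ t = θ (ν * t)) ∧
    (∀ x : R, (∀ y : R, (∀ t ∈ I, y * t = 0) → x * y = 0) → x ∈ I) ∧
    (Nat.card I : ℝ) * ({y : R | ∀ t ∈ I, y * t = 0}.ncard : ℝ) = (Fintype.card R : ℝ) ∧
    ∀ ν : R, (∑ t : R, if t ∈ I then θ (ν * t) else 0) =
      if ∀ t ∈ I, ν * t = 0 then (Nat.card I : ℂ) else 0

/-- (RB) square roots near to a square. -/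
def X_RB : Prop :=
  ∀ (R : Type) [CommRing R] (I : Ideal R) (N : ℕ), I ^ N = ⊥ → ∀ s₀ q₀ h : R, q₀ ^ 2 = s₀ →
    4 * s₀ * h = 1 → ∃ c : ℕ → R, c 0 = q₀ ∧ c 5 = 28 * q₀ * h ^ 5 ∧
    ∀ τ ∈ I, (∑ k ∈ range (N + 6), c k * τ ^ k) ^ 2 = s₀ + τ

/-- (RC) differences of polynomials at nilpotent arguments. -/
def X_RC : Prop :=
  ∀ (R : Type) [CommRing R] (I : Ideal R) (N : ℕ) (c : ℕ → R), ∀ b₁ ∈ I, ∀ b₂ ∈ I,
    ∀ b₃ ∈ I, ∀ b₄ ∈ I, ∃ w : R → R,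
    (∀ τ ∈ I, dl b₄ (dl b₃ (dl b₂ (dl b₁ (fun x => ∑ k ∈ range (N + 6), c k * x ^ k)))) τ =
      b₁ * b₂ * b₃ * b₄ * w τ) ∧
    ∀ τ ∈ I, ∀ s ∈ I, ∃ u : R, w (τ + s) - w τ = s * u ∧ u - 120 * c 5 ∈ I

/-- (RD) quadratic sums: the lemma of Morse and the size. -/
def X_RD : Prop :=
  ∀ (R : Type) [CommRing R] [Fintype R] (θ : R → ℂ) (I : Ideal R) (N : ℕ), AC θ →
    I ^ N = ⊥ → IsUnit (2 : R) →
    (∀ κ : ℕ → R, IsUnit (κ 0) → ∀ f : R → R,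
      (∀ t ∈ I, f t = t ^ 2 * ∑ k ∈ range (N + 2), κ k * t ^ k) →
      (open scoped Classical in ∑ t : R, if t ∈ I then θ (f t) else 0) = Ga θ I (κ 0)) ∧
    (∀ u u' : R, IsUnit u → u - u' ∈ I → Ga θ I u = Ga θ I u') ∧
    (ND θ → ∀ u : R, IsUnit u → ‖Ga θ I u‖ ^ 2 ≤ (Fintype.card R : ℝ))

/-- (RE) stationary phase. -/
def X_RE : Prop :=
  ∀ (R : Type) [CommRing R] [Fintype R] (θ : R → ℂ) (I : Ideal R) (N : ℕ), ND θ →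
    I ^ N = ⊥ → IsUnit (2 : R) → ∀ i a X₀ Y₀ : R, 3 * i = 1 → a ∈ I → a ^ 4 = 0 →
    X₀ * Y₀ = 1 →
    (∀ q : R, q - Y₀ ∈ I → WW θ I i a X₀ (-(2 * q ^ 2)) =
      θ (4 * q + 2 * i * a ^ 2 * q ^ 3 - 2 * q ^ 2 * X₀) * Ga θ I (2 * Y₀ ^ 3)) ∧
    (∀ α ν : R, (∀ t ∈ I, ν * t = 0) → WW θ I i a X₀ (α + ν) = WW θ I i a X₀ α) ∧
    ∀ α : R, WW θ I i a X₀ α ≠ 0 → ∃ q ν : R, q - Y₀ ∈ I ∧ (∀ t ∈ I, ν * t = 0) ∧
      α = -(2 * q ^ 2) + ν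

/-- (RF) the Fourier transform of three differences of `WW`. -/
def X_RF : Prop :=
  ∀ (R : Type) [CommRing R] [Fintype R] (θ : R → ℂ) (I : Ideal R) (N : ℕ), ND θ →
    I ^ N = ⊥ → IsUnit (210 : R) → ∀ i a X₀ : R, 3 * i = 1 → a ∈ I → a ^ 4 = 0 →
    IsUnit X₀ → RD θ I (WW θ I i a X₀)

/-- (RG) the additive character of a primitive multiplicative character. -/
def X_RG : Prop :=
  ∀ (R : Type) [CommRing R] [Fintype R] (η : R → ℂ) (J : Ideal R) (h i : R), MC η →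
    (∀ w : R, w ≠ 0 → ∃ r : R, IsUnit (1 + r * w) ∧ η (1 + r * w) ≠ 1) → J ^ 4 = ⊥ →
    2 * h = 1 → 3 * i = 1 →
    ∃ θ : R → ℂ, AC θ ∧ (∀ j ∈ J, η (1 + j) = θ (lg h i j)) ∧
      ∀ a ∈ J, a ≠ 0 → ∃ s : R, θ (s * a) ≠ 1

/-- (RH) the differences of the multiplicative character. -/
def X_RH : Prop :=
  ∀ (R : Type) [CommRing R] [Fintype R] (η : R → ℂ) (J : Ideal R) (h i : R) (θ : R → ℂ),
    MC η → J ^ 4 = ⊥ → 2 * h = 1 → 3 * i = 1 → AC θ → (∀ j ∈ J, η (1 + j) = θ (lg h i j)) →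
    ∀ a ∈ J, ∀ X : R, (IsUnit X → η (X + a) * (starRingEnd ℂ) (η (X - a)) =
      θ (a * hp i a X)) ∧ (¬ IsUnit X → η (X + a) = 0)

end Pool.Agent.H31.SX
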