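import Pool.Agent.H31.SX.Defs

/-!
# The sub-Weyl bound in the archimedean and in the depth aspect: targets about ideals
-/

set_option autoImplicit false

open NumberField NumberField.InfinitePlace NumberField.Units
  NumberField.Units.dirichletUnitTheorem MeasureTheory Set Filter Complex
open scoped nonZeroDivisors ENNReal

namespace Pool.Agent.H31.SX

open Pool.Agent.H25.HK Pool.Agent.H23.LB Pool.Agent.H23.LC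
open Pool.Agent.H28.RC (Rep ft idl)
open Pool.Agent.H29.DW (dg Rl lf wv Pos Wg cpar Ci om zs rv PrG)
open Pool.Agent.H29.TC (Gn LC cq dvs AC MC)
open Pool.Agent.H31.SW

/-! ### Ideals -/

/-- (KP) the ideals `κ(θ)` between `k ^ θ` and `k ^ θ r`. -/
def X_KP : Prop :=
  ∀ (K : Type) [Field K] [NumberField K] (k r : Ideal (𝓞 K)), RK k r →
    ∃ κ : ℝ → Ideal (𝓞 K), ∀ θ : ℝ, 0 ≤ θ → θ ≤ 1 →
      κ θ ≠ ⊥ ∧ κ θ ≤ r ∧ Nf K k ^ θ ≤ Nf K (κ θ) ∧ Nf K (κ θ) ≤ Nf K k ^ θ * Nf K r ∧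
      (1 / 4 ≤ θ → κ θ ^ 4 ≤ k) ∧ (r = k.radical → k ≤ κ θ) ∧
      ∀ θ₂ θ₃ : ℝ, 0 ≤ θ₂ → 0 ≤ θ₃ → θ + θ₂ + θ₃ ≤ 1 →
        Nf K k ^ (θ + θ₂ + θ₃) ≤ Nf K (k ⊔ κ θ * κ θ₂ * κ θ₃)

open scoped Classical in
/-- (DV) sums over the divisors. -/
def X_DV : Prop :=
  ∀ n : ℕ, 0 < n → ∃ C : ℝ, 1 ≤ C ∧ ∀ (K : Type) [Field K] [NumberField K],
    Module.finrank ℚ K = n → ∀ k r j : Ideal (𝓞 K), RK k r → k ≤ j →
    ∑ e ∈ (dvs K k).filter (fun e => e ≤ j), (Real.sqrt (Nf K e))⁻¹ ≤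
      C * Nf K r * (Real.sqrt (Nf K j))⁻¹

/-- (DY) sums of negative powers with the greatest common divisors. -/
def X_DY : Prop :=
  ∀ n : ℕ, 0 < n → ∃ C : ℝ, 1 ≤ C ∧ ∀ (K : Type) [Field K] [NumberField K],
    Module.finrank ℚ K = n → ∀ (L : FI K) (y : InfinitePlace K → ℝ) (ω : InfinitePlace K → ℂ)
    (R : InfinitePlace K → ℝ) (k r κ : Ideal (𝓞 K)) (X : Finset K) (E : K → Ideal (𝓞 K)),
    L ≠ 0 → Pos ω → (∀ v, 0 < R v) → RK k r → κ ≠ ⊥ →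
    (∀ x ∈ X, x ∈ (κ : FI K) * L ∧ x ≠ 0 ∧ (∀ v, ‖wv v x y ω‖ ≤ R v) ∧ Gcd k L x (E x)) →
    ∑ x ∈ X, (∏ v : InfinitePlace K, (‖wv v x y ω‖ / R v) ^ (-(v.mult : ℝ) / 2)) *
      Real.sqrt (Nf K (E x)) ≤ C * Nf K r * (DD L y * PP R) / Real.sqrt (Nf K κ)

/-- (GX) the greatest common divisor exists. -/
def X_GX : Prop :=
  ∀ (K : Type) [Field K] [NumberField K] (k : Ideal (𝓞 K)) (L : FI K) (g : K), k ≠ ⊥ →
    L ≠ 0 → g ∈ L → ∃ e : Ideal (𝓞 K), Gcd k L g e ∧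
      (∀ l κ : Ideal (𝓞 K), l ⊔ k = ⊤ → k ≤ κ → g ∈ ((l * κ : Ideal (𝓞 K)) : FI K) * L →
        e ≤ κ ∧ g ∈ ((l * e : Ideal (𝓞 K)) : FI K) * L) ∧
      ∃ k' : Ideal (𝓞 K), k = e * k'

/-! ### Characters -/

/-- (SG) the local component of a Hecke character at the primes dividing `k`. -/
def X_SG : Prop :=
  ∀ (K : Type) [Field K] [NumberField K] (l k : Ideal (𝓞 K)), LK l k →
    ∀ (χ : HG K (l * k)), PrG k χ → ∃ η : 𝓞 K ⧸ k → ℂ, LC k η ∧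
    ∀ (M : FI K) (x₀ : K), M ≠ 0 → Gn (l * k) M x₀ → ∃ c : K → ℂ,
      (∀ x ∈ M, ‖c x‖ ≤ 1) ∧ (∀ x ∈ M, ∀ t ∈ (l : FI K) * M, c (x + t) = c x) ∧
      ∀ x ∈ M, cg χ M x = c x * cq k η M x₀ x

/-- (SH) the Fourier transform of the coefficients. -/
def X_SH : Prop :=
  ∀ (K : Type) [Field K] [NumberField K] (l k : Ideal (𝓞 K)), LK l k →
    ∀ (η : 𝓞 K ⧸ k → ℂ), LC k η → ∀ (M : FI K) (x₀ y₀ : K) (c : K → ℂ) (X : Finset K),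
    M ≠ 0 → Gn (l * k) M x₀ → Gn (l * k) (du K (((l * k : Ideal (𝓞 K)) : FI K) * M)) y₀ →
    (∀ x ∈ M, ‖c x‖ ≤ 1) → (∀ x ∈ M, ∀ t ∈ (l : FI K) * M, c (x + t) = c x) →
    Rep K (l * k) M X → ∃ c' : K → ℂ,
      (∀ y ∈ du K (((l * k : Ideal (𝓞 K)) : FI K) * M), ‖c' y‖ ≤ Nf K l * Real.sqrt (Nf K k)) ∧
      (∀ y ∈ du K (((l * k : Ideal (𝓞 K)) : FI K) * M),
        ∀ t ∈ (l : FI K) * du K (((l * k : Ideal (𝓞 K)) : FI K) * M), c' (y + t) = c' y) ∧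
      ∀ y ∈ du K (((l * k : Ideal (𝓞 K)) : FI K) * M),
        ft K X (fun x => c x * cq k η M x₀ x) y = c' y * (starRingEnd ℂ)
          (cq k η (du K (((l * k : Ideal (𝓞 K)) : FI K) * M)) y₀ y)

open scoped Classical in
/-- (FD) from the finite ring to the lattice. -/
def X_FD : Prop :=
  ∀ (K : Type) [Field K] [NumberField K] (k r : Ideal (𝓞 K)), k ≠ ⊥ → r ≠ ⊥ →
    ∀ [Fintype (𝓞 K ⧸ k)] (θ W : 𝓞 K ⧸ k → ℂ), ND θ →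
    RD θ (r.map (Ideal.Quotient.mk k)) W → ∀ (L : FI K) (y₀ ρ : K), L ≠ 0 → Gn k L y₀ →
    ∀ F : K → ℂ, (∀ (a : 𝓞 K) (y : K), y - (a : K) * y₀ ∈ (k : FI K) * L →
      F y = ca K ρ y * W (Ideal.Quotient.mk k a) / ((Real.sqrt (Nf K k) : ℝ) : ℂ)) →
    FD k r L F

open scoped Classical in
/-- (CF) the Fourier transform of a function on a residue class. -/
def X_CF : Prop :=
  ∀ (K : Type) [Field K] [NumberField K] (l r k : Ideal (𝓞 K)), l ≠ ⊥ → r ≠ ⊥ → k ≠ ⊥ →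
    l ⊔ r = ⊤ → l ⊔ k = ⊤ → ∀ [Fintype (𝓞 K ⧸ k)] (θ : 𝓞 K ⧸ k → ℂ), ND θ → ∀ (M : FI K) (x₀ ρ : K),
    M ≠ 0 → Gn k M x₀ → ρ ∈ M → ∀ a₀ : 𝓞 K, ρ - (a₀ : K) * x₀ ∈ (k : FI K) * M →
    ∃ y₀ : K, Gn k (du K (((l * (r ⊓ k) : Ideal (𝓞 K)) : FI K) * M)) y₀ ∧
    ∀ (H : 𝓞 K ⧸ k → ℂ) (c : K → ℂ),
    (∀ (a : 𝓞 K) (x : K), x ∈ M → x - (a : K) * x₀ ∈ (k : FI K) * M →
      c x = ci K (l * r) M ρ x * H (Ideal.Quotient.mk k a)) →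
    ∀ X : Finset K, Rep K (l * (r ⊓ k)) M X → ∀ (b : 𝓞 K) (y : K),
      y - (b : K) * y₀ ∈ (k : FI K) * du K (((l * (r ⊓ k) : Ideal (𝓞 K)) : FI K) * M) →
      ft K X c y = ca K ρ y * ∑ τ : 𝓞 K ⧸ k, if τ ∈ r.map (Ideal.Quotient.mk k) then
        H (Ideal.Quotient.mk k a₀ + τ) * θ (-(Ideal.Quotient.mk k b * τ)) else 0

/-- (CD) the correlations of a primitive character. -/
def X_CD : Prop :=
  ∀ (K : Type) [Field K] [NumberField K] (l k : Ideal (𝓞 K)), LK l k →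
    ∀ (η : 𝓞 K ⧸ k → ℂ), LC k η → ∀ (M : FI K) (x₀ : K), M ≠ 0 → Gn (l * k) M x₀ →
    CD l k k.radical M (cq k η M x₀) ∧
    CD l k k.radical M (fun x => (starRingEnd ℂ) (cq k η M x₀ x))

end Pool.Agent.H31.SX
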