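import Pool.Agent.H31.SX.Defs
import Pool.Agent.H31.SW.TargetsA

/-!
# The sub-Weyl bound in the archimedean and in the depth aspect: targets about the sums
-/

set_option autoImplicit false

open NumberField NumberField.InfinitePlace NumberField.Units
  NumberField.Units.dirichletUnitTheorem MeasureTheory Set Filter Complex
open scoped nonZeroDivisors ENNReal

namespace Pool.Agent.H31.SX

open Pool.Agent.H25.HK Pool.Agent.H23.LB Pool.Agent.H23.LC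
open Pool.Agent.H28.RC (Rep ft idl)
open Pool.Agent.H29.DW (dg Rl lf wv Pos Wg cpar Ci om zs rv Wt PrG)
open Pool.Agent.H31.SW

/-- (PO) Poisson summation with periodic coefficients. -/
def X_PO : Prop :=
  ∀ (K : Type) [Field K] [NumberField K] (j : Ideal (𝓞 K)) (M : FI K) (X : Finset K)
    (c : K → ℂ) (G : InfinitePlace K → ℂ → ℂ), j ≠ ⊥ → M ≠ 0 → Rep K j M X →
    (∀ x ∈ M, ∀ t ∈ (j : FI K) * M, c (x + t) = c x) → (∀ v, Continuous (G v)) →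
    (∃ R : ℝ, ∀ v w, R < ‖w‖ → G v w = 0) →
    (∃ C : ℝ, ∀ v ξ, Rl (rv v) ξ → ‖FF (rv v) (G v) ξ‖ ≤
      C * (1 + ‖ξ‖) ^ (-(Module.finrank ℚ K + 1 : ℝ))) →
    ∀ (y : InfinitePlace K → ℝ) (ω : InfinitePlace K → ℂ), Pos ω →
    Summable (fun x : {x : K // x ∈ du K ((j : FI K) * M)} => ‖∏ v, FF (rv v) (G v)
      (2 * Real.pi * dg (rv v) * wv v x (-y) (fun v => (starRingEnd ℂ) (ω v)))‖) ∧
    ∑' x : {x : K // x ∈ M}, c x * pF G y ω x =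
      ((DD M y / (Nf K j * Real.sqrt (dK K)) : ℝ) : ℂ) *
        ∑' x : {x : K // x ∈ du K ((j : FI K) * M)}, ft K X c x * ∏ v, FF (rv v) (G v)
          (2 * Real.pi * dg (rv v) * wv v x (-y) (fun v => (starRingEnd ℂ) (ω v)))

/-- (P3) the sum of three differences of a product of local data and a finite datum. -/
def X_P3 : Prop :=
  ∀ n : ℕ, 0 < n → ∃ C : ℝ, 0 ≤ C ∧ ∀ (K : Type) [Field K] [NumberField K],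
    Module.finrank ℚ K = n → ∀ (L : FI K) (y : InfinitePlace K → ℝ) (ω : InfinitePlace K → ℂ)
    (t : InfinitePlace K → Bool) (Λ a g : InfinitePlace K → ℂ) (F : InfinitePlace K → ℂ → ℂ)
    (k r : Ideal (𝓞 K)) (Φ : K → ℂ), L ≠ 0 → Pos ω → k ≠ ⊥ → r ≠ ⊥ →
    (∀ v, LDat (n + 5) (rv v) (t v) (Λ v) (a v) (g v) (F v)) → FD k r L Φ →
    ∀ (g₁ g₂ g₃ : K) (e₁ e₂ e₃ : Ideal (𝓞 K)), g₁ ≠ 0 → g₂ ≠ 0 → g₃ ≠ 0 →
    g₁ ∈ (r : FI K) * L → g₂ ∈ (r : FI K) * L → g₃ ∈ (r : FI K) * L →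
    Gcd k L g₁ e₁ → Gcd k L g₂ e₂ → Gcd k L g₃ e₃ →
    (∀ v, t v = true → ‖wv v g₁ y ω‖ ≤ 1 / 2000 * ‖Λ v‖ ∧ ‖wv v g₂ y ω‖ ≤ 1 / 2000 * ‖Λ v‖ ∧
      ‖wv v g₃ y ω‖ ≤ 1 / 2000 * ‖Λ v‖) →
    ‖∑' x : {x : K // x ∈ L}, dif g₃ (dif g₂ (dif g₁ (fun x => Φ x * pF F y ω x))) x‖ ≤
      C * Nf K r ^ 3 * Real.sqrt (dK K) * ((DD L y * PP (fun v => Mt (t v) (Λ v))) *
        PP (fun v => 1 + Ph (t v) (Λ v) (wv v g₁ y ω) (wv v g₂ y ω) (wv v g₃ y ω)) ^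
          (-(1 / 2) : ℝ) * Real.sqrt (Nf K (k ⊔ e₁ * e₂ * e₃) / Nf K k) +
        PP (fun v => 1 + Ph (t v) (Λ v) (wv v g₁ y ω) (wv v g₂ y ω) (wv v g₃ y ω)) ^
          (1 / 2 : ℝ) * Real.sqrt (Nf K k / Nf K (k ⊔ e₁ * e₂ * e₃)))

/-- (GD) the bound for the dual sums. -/
def X_GD : Prop :=
  ∀ n : ℕ, 0 < n → ∃ C : ℝ, 0 ≤ C ∧ ∀ (K : Type) [Field K] [NumberField K],
    Module.finrank ℚ K = n → ∀ (L : FI K) (y : InfinitePlace K → ℝ) (ω : InfinitePlace K → ℂ)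
    (t : InfinitePlace K → Bool) (Λ a g : InfinitePlace K → ℂ) (F : InfinitePlace K → ℂ → ℂ)
    (k r : Ideal (𝓞 K)) (Φ : K → ℂ), L ≠ 0 → Pos ω → RK k r →
    (∀ v, LDat (n + 5) (rv v) (t v) (Λ v) (a v) (g v) (F v)) → FD k r L Φ →
    ‖∑' x : {x : K // x ∈ L}, Φ x * pF F y ω x‖ ≤ C * Nf K r ^ 2 * Real.sqrt (dK K) *
      (1 + (DD L y / Nf K k) ^ (5 / 6 : ℝ) *
          (PP (fun v => Mt (t v) (Λ v)) * Nf K k) ^ (13 / 15 : ℝ) +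
        (DD L y / Nf K k) ^ (25 / 24 : ℝ) *
          (PP (fun v => Mt (t v) (Λ v)) * Nf K k) ^ (121 / 120 : ℝ))

/-- (SD) the bound for the sum after the first differencing step. -/
def X_SD : Prop :=
  ∀ (n : ℕ) (p : Bool → ℂ → ℂ), 0 < n → Pf p → ∃ C : ℝ, 0 ≤ C ∧ ∀ (K : Type) [Field K]
    [NumberField K], Module.finrank ℚ K = n → ∀ (l k κ : Ideal (𝓞 K)) (M : FI K) (q : K → ℂ)
    (y : InfinitePlace K → ℝ) (ω : InfinitePlace K → ℂ) (c : InfinitePlace K → ℂ) (ρ δ : K),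
    l ≠ ⊥ → k ≠ ⊥ → M ≠ 0 → Pos ω → CD l k k.radical M q → (∀ v, Rl (rv v) (c v)) → k ≤ κ →
    κ ≤ k.radical → κ ^ 4 ≤ k → ρ ∈ M → δ ∈ ((l * κ : Ideal (𝓞 K)) : FI K) * M → δ ≠ 0 →
    (∀ v, ‖wv v δ y ω‖ ≤ 1 / 10000) →
    ∃ N' : ℝ, 1 ≤ N' ∧ N' * Nf K κ ≤ Nf K k ∧
      Nf K k ≤ N' * (DD M y / Nf K l) * ∏ v : InfinitePlace K, ‖wv v δ y ω‖ ^ v.mult ∧
      ‖∑' x : {x : K // x ∈ M}, ci K (l * k.radical) M ρ x *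
        (q (x + δ) * (starRingEnd ℂ) (q (x - δ))) *
          pF (fun v => G2 (p (rv v)) (c v) (wv v δ y ω)) y ω x‖ ≤
        C * Nf K k.radical ^ 4 * dK K ^ 2 *
          ((DD M y / Nf K l) *
              (PP (fun v => max 1 ‖2 * c v * wv v δ y ω‖) * N') ^ (-(1 / 2) : ℝ) +
            (DD M y / Nf K l) ^ (1 / 6 : ℝ) *
              (PP (fun v => max 1 ‖2 * c v * wv v δ y ω‖) * N') ^ (11 / 30 : ℝ) +
            (DD M y / Nf K l) ^ (-(1 / 24) : ℝ) *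
              (PP (fun v => max 1 ‖2 * c v * wv v δ y ω‖) * N') ^ (61 / 120 : ℝ))

/-- (ME) the bound for the sum over a residue class. -/
def X_ME : Prop :=
  ∀ (n : ℕ) (p : Bool → ℂ → ℂ), 0 < n → Pf p → ∃ C : ℝ, 0 ≤ C ∧ ∀ (K : Type) [Field K]
    [NumberField K], Module.finrank ℚ K = n → ∀ (l k : Ideal (𝓞 K)) (M : FI K) (q : K → ℂ)
    (y : InfinitePlace K → ℝ) (ω : InfinitePlace K → ℂ) (c : InfinitePlace K → ℂ) (ρ : K),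
    l ≠ ⊥ → k ≠ ⊥ → M ≠ 0 → Pos ω → CD l k k.radical M q → (∀ v, Rl (rv v) (c v)) → ρ ∈ M →
    ‖∑' x : {x : K // x ∈ M}, ci K (l * k.radical) M ρ x * q x *
      pF (fun v => GG (p (rv v)) (c v)) y ω x‖ ≤
      C * Nf K k.radical ^ 3 * dK K ^ (5 / 4 : ℝ) * (1 + DD M y / Nf K l) ^ (1 / 2 : ℝ) *
        (PP (fun v => 1 + ‖c v‖) * Nf K k) ^ (27 / 164 : ℝ) *
          (1 + DD M y / Nf K l / (PP (fun v => 1 + ‖c v‖) * Nf K k) ^ (1 / 2 : ℝ)) ^ (3 / 4 : ℝ)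

/-- (RS) the sum over the residue classes. -/
def X_RS : Prop :=
  ∀ (n : ℕ) (p : Bool → ℂ → ℂ), 0 < n → Pf p → ∃ C : ℝ, 0 ≤ C ∧ ∀ (K : Type) [Field K]
    [NumberField K], Module.finrank ℚ K = n → ∀ (l k : Ideal (𝓞 K)) (M : FI K) (q cc : K → ℂ)
    (y : InfinitePlace K → ℝ) (ω : InfinitePlace K → ℂ) (c : InfinitePlace K → ℂ) (E : ℝ),
    l ≠ ⊥ → k ≠ ⊥ → M ≠ 0 → Pos ω → CD l k k.radical M q → (∀ v, Rl (rv v) (c v)) →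
    (∀ x ∈ M, ∀ t ∈ (l : FI K) * M, cc (x + t) = cc x) → (∀ x ∈ M, ‖cc x‖ ≤ E) →
    ‖∑' x : {x : K // x ∈ M}, cc x * q x * pF (fun v => GG (p (rv v)) (c v)) y ω x‖ ≤
      C * E * Nf K l * Nf K k.radical ^ 4 * dK K ^ (5 / 4 : ℝ) *
        (1 + DD M y / Nf K l) ^ (1 / 2 : ℝ) *
          (PP (fun v => 1 + ‖c v‖) * Nf K k) ^ (27 / 164 : ℝ) *
            (1 + DD M y / Nf K l / (PP (fun v => 1 + ‖c v‖) * Nf K k) ^ (1 / 2 : ℝ)) ^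
              (3 / 4 : ℝ)

open scoped Classical in
/-- (BI) the bound for the integral over all positions. -/
def X_BI : Prop :=
  ∀ n : ℕ, 0 < n → ∀ κ : ℝ, 0 < κ → κ ≤ 1 → ∃ C : ℝ, 0 ≤ C ∧
    ∀ (K : Type) [Field K] [NumberField K], Module.finrank ℚ K = n → ∀ (ι : Type) [Fintype ι]
    (M : ι → FI K), Reps K M → ∀ (l k : Ideal (𝓞 K)) (c : InfinitePlace K → ℂ)
    (X B E : ℝ) (v : ℝ → ℂ) (q cc : ι → K → ℂ) (s : Bool), l ≠ ⊥ → k ≠ ⊥ →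
    (∀ i, CD l k k.radical (M i) (q i)) → (∀ v, Rl (rv v) (c v)) →
    1 ≤ X → X ^ 2 ≤ 3 ^ n * (dK K * Nf K l * (PP (fun v => 1 + ‖c v‖) * Nf K k)) → 0 ≤ B →
    Wt κ X B v → 0 ≤ E →
    (∀ i, ∀ x ∈ M i, ∀ t ∈ (l : FI K) * M i, cc i (x + t) = cc i x) →
    (∀ i, ∀ x ∈ M i, ‖cc i x‖ ≤ E) →
    ∑ i, ∫⁻ u in Fd K ×ˢ (univ : Set ℝ) ×ˢ An K,
      ENNReal.ofReal ‖∑' x : {x : K // x ∈ M i ∧ x ≠ 0}, (cc i x * q i x) *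
        v (Ideal.absNorm (idl K (M i) x)) *
          pF (fun v => GG (pz (rv v)) (c v)) (yM K (M i) u.2.1 (zs s u.1)) (om s u.2.2) x‖ ≤
    ENNReal.ofReal (C * B * E * (classNumber K * regulator K) * Nf K l *
      Nf K k.radical ^ 4 * dK K ^ (13 / 8 : ℝ) * X ^ (2 * κ) *
        (PP (fun v => 1 + ‖c v‖) * Nf K k) ^ (27 / 164 : ℝ))

/-- (BP) the bound for the first sum. -/
def X_BP : Prop :=
  ∀ n : ℕ, 0 < n → ∀ κ : ℝ, 0 < κ → κ ≤ 1 → ∃ C : ℝ, 0 ≤ C ∧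
    ∀ (K : Type) [Field K] [NumberField K], Module.finrank ℚ K = n →
    ∀ (l k : Ideal (𝓞 K)), LK l k → ∀ (χ : HG K (l * k)), PrG k χ →
    ∀ (t B : ℝ) (v : ℝ → ℂ), 0 ≤ B →
    Wt κ (Real.sqrt (|(discr K : ℝ)| * Nf K (l * k) * Ci χ.k χ.ν t)) B v →
    ‖∑' J : NZI K, χ.ψ J.1 * v (Ideal.absNorm J.1) *
      (Ideal.absNorm J.1 : ℂ) ^ (-(t * I : ℂ))‖ ≤
    C * B * (classNumber K * regulator K) * Nf K l * Nf K k.radical ^ 4 *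
      dK K ^ (13 / 8 : ℝ) * (|(discr K : ℝ)| * Nf K (l * k) * Ci χ.k χ.ν t) ^ κ *
        (Ci χ.k χ.ν t * Nf K k) ^ (27 / 164 : ℝ)

/-- (BQ) the bound for the dual sum. -/
def X_BQ : Prop :=
  ∀ n : ℕ, 0 < n → ∀ κ : ℝ, 0 < κ → κ ≤ 1 → ∃ C : ℝ, 0 ≤ C ∧
    ∀ (K : Type) [Field K] [NumberField K], Module.finrank ℚ K = n →
    ∀ (l k : Ideal (𝓞 K)), LK l k → ∀ (D : Sys K (l * k)) (χ : HG K (l * k)), PrG k χ →
    ∀ (t B : ℝ) (v : ℝ → ℂ), 0 ≤ B →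
    Wt κ (Real.sqrt (|(discr K : ℝ)| * Nf K (l * k) * Ci χ.k χ.ν t)) B v →
    ‖∑' J : NZI K, cd D χ J.1 * v (Ideal.absNorm J.1) *
      (Ideal.absNorm J.1 : ℂ) ^ (t * I : ℂ)‖ ≤
    C * B * (classNumber K * regulator K) * Nf K l ^ (3 / 2 : ℝ) * Nf K k.radical ^ 4 *
      dK K ^ (13 / 8 : ℝ) * (|(discr K : ℝ)| * Nf K (l * k) * Ci χ.k χ.ν t) ^ κ *
        (Ci χ.k χ.ν t * Nf K k) ^ (27 / 164 : ℝ)

/-- (SW) the sub-Weyl bound. -/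
def X_SW : Prop :=
  ∀ n : ℕ, 0 < n → ∀ ε : ℝ, 0 < ε → ∃ C : ℝ, ∀ (K : Type) [Field K] [NumberField K],
    Module.finrank ℚ K = n → ∀ (l k : Ideal (𝓞 K)), LK l k → ∀ (χ : HG K (l * k)), PrG k χ →
    ∃ L : ℂ → ℂ, (∀ s : ℂ, 1 < s.re → L s = χ.series s) ∧
    (∀ s : ℂ, s ≠ 0 → s ≠ 1 → DifferentiableAt ℂ L s) ∧
    ((∃ I : Ideal (𝓞 K), χ.ψ I ≠ 0 ∧ χ.ψ I ≠ 1) → Differentiable ℂ L) ∧
    ∀ t : ℝ, ‖L (1 / 2 + t * I)‖ ≤ C * |(discr K : ℝ)| ^ (5 / 2 : ℝ) *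
      (Ideal.absNorm l : ℝ) ^ 2 * (Ideal.absNorm k.radical : ℝ) ^ 4 *
        (Ideal.absNorm k * Ci χ.k χ.ν t) ^ (27 / 164 + ε : ℝ)

end Pool.Agent.H31.SX
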