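import Pool.Agent.H31.SW.Defs
import Pool.Agent.H29.TC.Targets
import Pool.Agent.H29.DW.Stmt

/-!
# The sub-Weyl bound in the archimedean and in the depth aspect: definitions
-/

set_option autoImplicit false

open NumberField NumberField.InfinitePlace NumberField.Units
  NumberField.Units.dirichletUnitTheorem MeasureTheory Set Filter Complex
open scoped nonZeroDivisors ENNReal

namespace Pool.Agent.H31.SX

open Pool.Agent.H25.HK Pool.Agent.H23.LB Pool.Agent.H23.LC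
open Pool.Agent.H28.RC (Rep ft idl)
open Pool.Agent.H29.DW (dg Rl lf wv Pos Wg cpar Ci om zs rv)
open Pool.Agent.H31.SW

/-! ### Finite rings -/

section ring

variable {R : Type} [CommRing R]

/-- An additive character which is not trivial on any nonzero ideal. -/
structure ND (θ : R → ℂ) : Prop where
  ac : Pool.Agent.H29.TC.AC θ
  nd : ∀ w : R, (∀ s : R, θ (s * w) = 1) → w = 0

/-- the difference of a function -/
def dl (b : R) (f : R → R) : R → R := fun x => f (x + b) - f x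

/-- the logarithm of `1 + j` for `j ^ 4 = 0` (`h = 1 / 2`, `i = 1 / 3`) -/
def lg (h i j : R) : R := j - h * j ^ 2 + i * j ^ 3

/-- the phase after the first difference: `2 / X + (2 / 3) a ^ 2 / X ^ 3` (`i = 1 / 3`) -/
noncomputable def hp (i a X : R) : R := 2 * Ring.inverse X + 2 * i * a ^ 2 * Ring.inverse X ^ 3

open scoped Classical in
/-- the sum over the residue class of `X₀` modulo `I` -/
noncomputable def WW [Fintype R] (θ : R → ℂ) (I : Ideal R) (i a X₀ α : R) : ℂ :=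
  ∑ τ : R, if τ ∈ I then θ (hp i a (X₀ + τ) - α * τ) else 0

open scoped Classical in
/-- the quadratic sum over `I` -/
noncomputable def Ga [Fintype R] (θ : R → ℂ) (I : Ideal R) (u : R) : ℂ :=
  ∑ t : R, if t ∈ I then θ (u * t ^ 2) else 0

/-- Bounds for the Fourier transform of three differences of `W`. -/
structure RD [Fintype R] (θ : R → ℂ) (I : Ideal R) (W : R → ℂ) : Prop where
  norm : ∀ α, ‖W α‖ ^ 2 ≤ (Fintype.card R : ℝ)
  inv : ∀ α ν, (∀ t ∈ I, ν * t = 0) → W (α + ν) = W α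
  cor : ∀ β₁ ∈ I, ∀ β₂ ∈ I, ∀ β₃ ∈ I, ∀ ξ : R,
    ‖∑ α : R, dif β₃ (dif β₂ (dif β₁ W)) α * θ (α * ξ)‖ ^ 2 ≤ (Fintype.card R : ℝ) ^ 9 *
      (Nat.card (R ⧸ I) : ℝ) ^ 3 * ({δ : R | β₁ * β₂ * β₃ * δ = 0}.ncard : ℝ)
  van : ∀ β₁ ∈ I, ∀ β₂ ∈ I, ∀ β₃ ∈ I, ∀ ξ : R,
    ∑ α : R, dif β₃ (dif β₂ (dif β₁ W)) α * θ (α * ξ) ≠ 0 →
      ∀ δ ∈ I, β₁ * β₂ * β₃ * δ = 0 → θ (δ * ξ) = 1

end ring

/-! ### Ideals and lattices -/

section NF

variable {K : Type} [Field K] [NumberField K]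

/-- `r` is squarefree and divisible by all prime divisors of `k`. -/
structure RK (k r : Ideal (𝓞 K)) : Prop where
  k_ne : k ≠ ⊥
  r_ne : r ≠ ⊥
  rad : r.radical = r
  le : r ≤ k.radical

/-- The greatest common divisor of `k` and `g L⁻¹`. -/
structure Gcd (k : Ideal (𝓞 K)) (L : FI K) (g : K) (e : Ideal (𝓞 K)) : Prop where
  le : k ≤ e
  mem : g ∈ (e : FI K) * L
  min : ∀ e' : Ideal (𝓞 K), k ≤ e' → g ∈ (e' : FI K) * L → e ≤ e'

/-- A finite dual datum with modulus `k` on the lattice `L`: bounds for the Fourier transform of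
three differences. -/
structure FD (k r : Ideal (𝓞 K)) (L : FI K) (F : K → ℂ) : Prop where
  norm : ∀ x ∈ L, ‖F x‖ ≤ 1
  per : ∀ g₁ ∈ (r : FI K) * L, ∀ g₂ ∈ (r : FI K) * L, ∀ g₃ ∈ (r : FI K) * L,
    ∀ x ∈ L, ∀ t ∈ (k : FI K) * L,
      dif g₃ (dif g₂ (dif g₁ F)) (x + t) = dif g₃ (dif g₂ (dif g₁ F)) x
  cor : ∀ g₁ ∈ (r : FI K) * L, ∀ g₂ ∈ (r : FI K) * L, ∀ g₃ ∈ (r : FI K) * L,
    ∀ e₁ e₂ e₃ : Ideal (𝓞 K), Gcd k L g₁ e₁ → Gcd k L g₂ e₂ → Gcd k L g₃ e₃ →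
    ∃ e : Ideal (𝓞 K), e ≠ ⊥ ∧ Nf K (k ⊔ e₁ * e₂ * e₃) ≤ Nf K e * Nf K r ∧
    ∀ X : Finset K, Rep K k L X → ∀ y ∈ du K ((k : FI K) * L),
      ‖ft K X (dif g₃ (dif g₂ (dif g₁ F))) y‖ ≤
        Nf K r ^ 2 * Real.sqrt (Nf K k * Nf K (k ⊔ e₁ * e₂ * e₃)) ∧
      (ft K X (dif g₃ (dif g₂ (dif g₁ F))) y ≠ 0 → y ∈ (e : FI K) * du K ((k : FI K) * L))

/-- The coefficients of the first sum: the correlations have dual data. -/
structure CD (l k r : Ideal (𝓞 K)) (M : FI K) (q : K → ℂ) : Prop where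
  norm : ∀ x ∈ M, ‖q x‖ ≤ 1
  cor : ∀ κ : Ideal (𝓞 K), k ≤ κ → κ ≤ r → κ ^ 4 ≤ k → ∀ ρ ∈ M,
    ∀ δ ∈ ((l * κ : Ideal (𝓞 K)) : FI K) * M, δ ≠ 0 →
    ∃ (e k' : Ideal (𝓞 K)) (F : K → ℂ), k = e * k' ∧ e ≤ κ ∧
      δ ∈ ((l * e : Ideal (𝓞 K)) : FI K) * M ∧
      FD k' r (du K (((l * (r ⊓ k') : Ideal (𝓞 K)) : FI K) * M)) F ∧
      (∀ x ∈ M, ∀ t ∈ ((l * (r ⊓ k') : Ideal (𝓞 K)) : FI K) * M,
        ci K (l * r) M ρ (x + t) * (q (x + t + δ) * (starRingEnd ℂ) (q (x + t - δ))) =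
          ci K (l * r) M ρ x * (q (x + δ) * (starRingEnd ℂ) (q (x - δ)))) ∧
      ∀ X : Finset K, Rep K (l * (r ⊓ k')) M X →
        ∀ y ∈ du K (((l * (r ⊓ k') : Ideal (𝓞 K)) : FI K) * M),
          ft K X (fun x => ci K (l * r) M ρ x *
            (q (x + δ) * (starRingEnd ℂ) (q (x - δ)))) y = ((Real.sqrt (Nf K k') : ℝ) : ℂ) * F y

/-- The modulus is `l k`: `l` and `210` are prime to `k`. -/
structure LK (l k : Ideal (𝓞 K)) : Prop where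
  l_ne : l ≠ ⊥
  k_ne : k ≠ ⊥
  cop : l ⊔ k = ⊤
  big : Ideal.span {(210 : 𝓞 K)} ⊔ k = ⊤

end NF

end Pool.Agent.H31.SX
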